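import Pool.Agent.Y661.BG.Fin
import Pool.Agent.W193.BK.ES
import Pool.Agent.W240.BK.Var
import Pool.Agent.W540.BK.Fac
import Pool.Agent.W240.BK.Fluct
import Pool.Agent.W340.BK.Conc
import Pool.Agent.W918.BK.Osc
import Pool.Agent.W240.BK.Two
import Pool.Agent.W465.BK.QB
import Pool.Agent.W475.BK.Low
import Pool.Agent.W975.BK.Sup
import Pool.Agent.W790.BK.ADM
import Pool.Agent.W475.BK.Inv
import Pool.Agent.W351.BK.Mb
import Pool.Agent.W363.BK.Site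
import Pool.Agent.W261.BK.Third

/-! Gaussian disorder beyond the kinetic scale: the final theorem. -/

set_option autoImplicit false
set_option linter.unusedSectionVars false

open scoped BigOperators
open MeasureTheory ProbabilityTheory

namespace Pool.Agent.Y661.BG

open Pool.Agent.W788.LD.Spec
open Pool.Agent.H4R2.LO (Zd)

/-- the conclusion for one coupling and one configuration -/
def FlatAt (d : ℕ) (K σ : ℝ) (ξ : Zd d → ℝ) : Prop :=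
  (∀ (f : Zd d → ℂ) (B : Finset (Zd d)),
    (∀ a ∈ B, ‖a‖ ≤ Real.exp (|σ| ^ (-(1 / 100) : ℝ))) → (∀ a, a ∉ B → f a = 0) →
    ∀ m : Measure ℝ, IsFiniteMeasure m →
    (∀ z : ℂ, z.im ≠ 0 → ∃ u : Zd d → ℂ, (Summable fun x => ‖u x‖ ^ 2) ∧
      (∀ x, S u x + ((σ * ξ x : ℝ) : ℂ) * u x - z * u x = f x) ∧
      ∫ t : ℝ, ((t : ℂ) - z)⁻¹ ∂m = ∑' x, (starRingEnd ℂ) (f x) * u x) →
    ∀ E s : ℝ, |σ| ^ (17 / 8 : ℝ) ≤ s → m.real (Set.Icc (E - s) (E + s)) ≤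
      K * Real.log (1 / |σ|) * s * (∑ a ∈ B, ‖f a‖) ^ 2) ∧
  (∀ (E : ℝ) (u : Zd d → ℂ), (Summable fun x => ‖u x‖ ^ 2) →
    (∀ x, S u x + ((σ * ξ x : ℝ) : ℂ) * u x = (E : ℂ) * u x) →
    ∀ a : Zd d, ‖a‖ ≤ Real.exp (|σ| ^ (-(1 / 100) : ℝ)) →
    ‖u a‖ ^ 2 ≤ K * Real.log (1 / |σ|) * |σ| ^ (17 / 8 : ℝ) * ∑' x, ‖u x‖ ^ 2)

theorem law_neg (d : ℕ) : (Pg d).map (fun ξ x => -ξ x) = Pg d := by
  have h1 := Measure.infinitePi_map_pi (μ := fun _ : Zd d => Pool.Agent.W788.MFP.Gm.γ)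
    (f := fun _ (s : ℝ) => -s) (fun _ => measurable_neg)
  rw [map_neg] at h1
  exact h1

theorem main (d : ℕ) (hd : 3 ≤ d) :
    ∃ s0 K : ℝ, 0 < s0 ∧ 0 < K ∧ ∀ σ : ℝ, 0 < |σ| → |σ| ≤ s0 →
      ∃ G : Set (Zd d → ℝ), MeasurableSet G ∧
        1 - 2 * Real.exp (-|σ| ^ (-(1 / 100) : ℝ)) ≤ (Pg d).real G ∧
        ∀ ξ ∈ G, FlatAt d K σ ξ := by
  obtain ⟨s0, K, hs0, hK, h⟩ := finG
    (Pool.Agent.W261.BK.third Pool.Agent.W540.BK.fac)
    (Pool.Agent.W240.BK.fluct (Pool.Agent.W240.BK.var Pool.Agent.W193.BK.ES.es))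
    Pool.Agent.W475.BK.inv Pool.Agent.W351.BK.mb
    (Pool.Agent.W340.BK.Conc.conc Pool.Agent.W193.BK.ES.es)
    Pool.Agent.W975.BK.sup Pool.Agent.W363.BK.site
    (Pool.Agent.W465.BK.qb (Pool.Agent.W240.BK.two Pool.Agent.W918.BK.Osc.osc))
    Pool.Agent.W475.BK.low Pool.Agent.W790.BK.ADM.adm d hd
  refine ⟨s0, K, hs0, hK, fun σ hσ hσ0 => ?_⟩
  obtain ⟨G, hG, hP, hb⟩ := h |σ| hσ hσ0
  rcases le_or_gt 0 σ with h0 | h0
  · refine ⟨G, hG, hP, fun ξ hξ => ?_⟩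
    have h1 := hb ξ hξ
    have e1 : ∀ x, |σ| * ξ x = σ * ξ x := fun x => by rw [abs_of_nonneg h0]
    unfold FlatAt
    simp only [e1] at h1
    exact h1
  · have hm : Measurable (fun (ξ : Zd d → ℝ) y => -ξ y) := by fun_prop
    refine ⟨(fun ξ y => -ξ y) ⁻¹' G, hm hG, ?_, fun ξ hξ => ?_⟩
    · have h1 : (Pg d).real ((fun ξ y => -ξ y) ⁻¹' G) = (Pg d).real G := by
        conv_rhs => rw [← law_neg d]
        rw [map_measureReal_apply hm hG]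
      rw [h1]
      exact hP
    · have h1 := hb _ hξ
      have e1 : ∀ x, |σ| * -ξ x = σ * ξ x := fun x => by rw [abs_of_neg h0]; ring
      unfold FlatAt
      simp only [e1] at h1
      exact h1

end Pool.Agent.Y661.BG
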