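import Pool.Agent.W788.BK.Lat

/-! Cutting off: two potentials that agree in a large box. -/

set_option autoImplicit false
set_option linter.unusedSectionVars false

open scoped BigOperators
open MeasureTheory

namespace Pool.Agent.Y661.BG

open Pool.Agent.W788.MFP.Cut (φ φ_nonneg φ_le_one φ_one φ_zero φ_lip norm_single)
open Pool.Agent.H4R2.LO (Zd)
open Pool.Agent.W788.BK (SM1)

section comm

variable {d : ℕ} {F : Type} [NormedAddCommGroup F] [NormedSpace ℝ F]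

/-- the commutator of the adjacency operator with the cutoff -/
noncomputable def rr (ℓ : ℝ) (u : Zd d → F) (x : Zd d) : F :=
  ∑ i : Fin d, ((φ ℓ (x + Pi.single i 1) - φ ℓ x) • u (x + Pi.single i 1) +
    (φ ℓ (x - Pi.single i 1) - φ ℓ x) • u (x - Pi.single i 1))

/-- the sum of the squares over the neighbours -/
noncomputable def nb (u : Zd d → F) (x : Zd d) : ℝ :=
  ∑ i : Fin d, (‖u (x + Pi.single i 1)‖ ^ 2 + ‖u (x - Pi.single i 1)‖ ^ 2)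

theorem rr_pt (ℓ : ℝ) (hℓ : 0 < ℓ) (u : Zd d → F) (x : Zd d) :
    ‖rr ℓ u x‖ ^ 2 ≤ 2 * d / ℓ ^ 2 * nb u x := by
  have hl1 : ∀ i : Fin d, |φ ℓ (x + Pi.single i 1) - φ ℓ x| ≤ 1 / ℓ := fun i => by
    apply φ_lip ℓ hℓ
    rw [add_sub_cancel_left]
    exact norm_single i
  have hl2 : ∀ i : Fin d, |φ ℓ (x - Pi.single i 1) - φ ℓ x| ≤ 1 / ℓ := fun i => by
    apply φ_lip ℓ hℓ
    rw [sub_sub_cancel_left, norm_neg]
    exact norm_single i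
  have h1 : ‖rr ℓ u x‖ ≤ ∑ i : Fin d, 1 / ℓ *
      (‖u (x + Pi.single i 1)‖ + ‖u (x - Pi.single i 1)‖) := by
    unfold rr
    refine norm_sum_le_of_le _ fun i _ => ?_
    refine (norm_add_le _ _).trans ?_
    rw [norm_smul, norm_smul, Real.norm_eq_abs, Real.norm_eq_abs, mul_add]
    gcongr
    · exact hl1 i
    · exact hl2 i
  calc ‖rr ℓ u x‖ ^ 2 ≤ (∑ i : Fin d, 1 / ℓ *
      (‖u (x + Pi.single i 1)‖ + ‖u (x - Pi.single i 1)‖)) ^ 2 := by gcongr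
    _ ≤ ((Finset.univ : Finset (Fin d)).card : ℝ) * ∑ i : Fin d, (1 / ℓ *
      (‖u (x + Pi.single i 1)‖ + ‖u (x - Pi.single i 1)‖)) ^ 2 := sq_sum_le_card_mul_sum_sq
    _ ≤ d * ∑ i : Fin d, 2 / ℓ ^ 2 *
      (‖u (x + Pi.single i 1)‖ ^ 2 + ‖u (x - Pi.single i 1)‖ ^ 2) := by
        rw [Finset.card_univ, Fintype.card_fin]
        gcongr with i _
        obtain ⟨p, hp⟩ : ∃ p, p = ‖u (x + Pi.single i 1)‖ := ⟨_, rfl⟩
        obtain ⟨q, hq⟩ : ∃ q, q = ‖u (x - Pi.single i 1)‖ := ⟨_, rfl⟩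
        rw [← hp, ← hq]
        have e1 : (1 / ℓ * (p + q)) ^ 2 = 1 / ℓ ^ 2 * (p + q) ^ 2 := by
          field_simp
        have e2 : 2 / ℓ ^ 2 * (p ^ 2 + q ^ 2) = 1 / ℓ ^ 2 * (2 * (p ^ 2 + q ^ 2)) := by
          field_simp
        rw [e1, e2]
        apply mul_le_mul_of_nonneg_left _ (by positivity)
        nlinarith [sq_nonneg (p - q)]
    _ = _ := by
        unfold nb
        rw [← Finset.mul_sum]
        ring

theorem sh_summ (u : Zd d → F) (e : Zd d) (hu : Summable fun x => ‖u x‖ ^ 2) :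
    Summable fun x => ‖u (x + e)‖ ^ 2 :=
  (Equiv.addRight e).summable_iff (f := fun x => ‖u x‖ ^ 2) |>.2 hu

theorem sh_tsum (u : Zd d → F) (e : Zd d) :
    ∑' x, ‖u (x + e)‖ ^ 2 = ∑' x, ‖u x‖ ^ 2 :=
  (Equiv.addRight e).tsum_eq (fun x => ‖u x‖ ^ 2)

theorem nb_summ (u : Zd d → F) (hu : Summable fun x => ‖u x‖ ^ 2) : Summable (nb u) := by
  unfold nb
  refine summable_sum fun i _ => (sh_summ u _ hu).add ?_
  have := sh_summ u (-Pi.single i 1) hu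
  simpa only [← sub_eq_add_neg] using this

theorem nb_tsum (u : Zd d → F) (hu : Summable fun x => ‖u x‖ ^ 2) :
    ∑' x, nb u x = 2 * d * ∑' x, ‖u x‖ ^ 2 := by
  have h2 : ∀ i : Fin d, Summable fun x => ‖u (x - Pi.single i 1)‖ ^ 2 := fun i => by
    have := sh_summ u (-Pi.single i 1) hu
    simpa only [← sub_eq_add_neg] using this
  have h3 : ∀ i : Fin d, ∑' x, ‖u (x - Pi.single i 1)‖ ^ 2 = ∑' x, ‖u x‖ ^ 2 := fun i => by
    have := sh_tsum u (-Pi.single i 1)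
    simpa only [← sub_eq_add_neg] using this
  unfold nb
  rw [Summable.tsum_finsetSum fun i _ => (sh_summ u _ hu).add (h2 i)]
  have h4 : ∀ i : Fin d, ∑' x : Zd d, (‖u (x + Pi.single i 1)‖ ^ 2 + ‖u (x - Pi.single i 1)‖ ^ 2) =
      2 * ∑' x, ‖u x‖ ^ 2 := fun i => by
    rw [Summable.tsum_add (sh_summ u _ hu) (h2 i), sh_tsum, h3]
    ring
  rw [Finset.sum_congr rfl fun i _ => h4 i, Finset.sum_const, Finset.card_univ, Fintype.card_fin,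
    nsmul_eq_mul]
  ring

theorem rr_summ (ℓ : ℝ) (hℓ : 0 < ℓ) (u : Zd d → F) (hu : Summable fun x => ‖u x‖ ^ 2) :
    Summable fun x => ‖rr ℓ u x‖ ^ 2 :=
  Summable.of_nonneg_of_le (fun x => by positivity) (rr_pt ℓ hℓ u) ((nb_summ u hu).mul_left _)

theorem rr_tsum (ℓ : ℝ) (hℓ : 0 < ℓ) (u : Zd d → F) (hu : Summable fun x => ‖u x‖ ^ 2) :
    ∑' x, ‖rr ℓ u x‖ ^ 2 ≤ (2 * d / ℓ) ^ 2 * ∑' x, ‖u x‖ ^ 2 := by
  refine ((rr_summ ℓ hℓ u hu).tsum_le_tsum (rr_pt ℓ hℓ u) ((nb_summ u hu).mul_left _)).trans ?_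
  rw [tsum_mul_left, nb_tsum u hu]
  apply le_of_eq
  field_simp

theorem cut_summ (ℓ : ℝ) (u : Zd d → F) (hu : Summable fun x => ‖u x‖ ^ 2) :
    Summable fun x => ‖φ ℓ x • u x‖ ^ 2 := by
  refine Summable.of_nonneg_of_le (fun x => by positivity) (fun x => ?_) hu
  rw [norm_smul, Real.norm_eq_abs, abs_of_nonneg (φ_nonneg ℓ x)]
  have h1 := φ_nonneg ℓ x
  have h2 := φ_le_one ℓ x
  have h3 : φ ℓ x * ‖u x‖ ≤ 1 * ‖u x‖ := by gcongr
  rw [one_mul] at h3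
  gcongr

theorem cut_tsum (ℓ : ℝ) (u : Zd d → F) (hu : Summable fun x => ‖u x‖ ^ 2) :
    ∑' x, ‖φ ℓ x • u x‖ ^ 2 ≤ ∑' x, ‖u x‖ ^ 2 := by
  refine (cut_summ ℓ u hu).tsum_le_tsum (fun x => ?_) hu
  rw [norm_smul, Real.norm_eq_abs, abs_of_nonneg (φ_nonneg ℓ x)]
  have h1 := φ_nonneg ℓ x
  have h2 := φ_le_one ℓ x
  have h3 : φ ℓ x * ‖u x‖ ≤ 1 * ‖u x‖ := by gcongr
  rw [one_mul] at h3
  gcongr

/-- the commutator identity -/
theorem comm_eq (ℓ : ℝ) (u : Zd d → F) (x : Zd d) :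
    ∑ i : Fin d, (φ ℓ (x + Pi.single i 1) • u (x + Pi.single i 1) +
      φ ℓ (x - Pi.single i 1) • u (x - Pi.single i 1)) =
    φ ℓ x • ∑ i : Fin d, (u (x + Pi.single i 1) + u (x - Pi.single i 1)) + rr ℓ u x := by
  unfold rr
  rw [Finset.smul_sum, ← Finset.sum_add_distrib]
  refine Finset.sum_congr rfl fun i _ => ?_
  rw [sub_smul, sub_smul, smul_add]
  abel

end comm

variable {d : ℕ}

/-- smoothing for a potential that agrees in a large box with one that has it -/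
theorem SM1_cut (σ ρ t g ℓ : ℝ) (hℓ : 0 < ℓ) (hρℓ : ρ ≤ ℓ) (ht : 0 < t) (hg : 0 ≤ g)
    (hbig : 4 * (2 * d / ℓ) ^ 2 ≤ 5 * t ^ 2) (ξ ξ' : Zd d → ℝ)
    (hag : ∀ x : Zd d, ‖x‖ < 2 * ℓ → ξ x = ξ' x) (h : SM1 d σ ρ t g ξ') :
    SM1 d σ ρ t (2 * g) ξ := by
  intro E u f hu hf heq a ha
  have hu' : Summable fun x => ‖u x‖ ^ 2 := by simpa only [Real.norm_eq_abs, sq_abs] using hu
  have hf' : Summable fun x => ‖f x‖ ^ 2 := by simpa only [Real.norm_eq_abs, sq_abs] using hf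
  have s1 : Summable fun x => (φ ℓ x * u x) ^ 2 := by
    have := cut_summ ℓ u hu'
    simpa only [Real.norm_eq_abs, sq_abs, smul_eq_mul] using this
  have s1' : ∑' x, (φ ℓ x * u x) ^ 2 ≤ ∑' x, u x ^ 2 := by
    have := cut_tsum ℓ u hu'
    simpa only [Real.norm_eq_abs, sq_abs, smul_eq_mul] using this
  have s2 : Summable fun x => (φ ℓ x * f x) ^ 2 := by
    have := cut_summ ℓ f hf'
    simpa only [Real.norm_eq_abs, sq_abs, smul_eq_mul] using this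
  have s2' : ∑' x, (φ ℓ x * f x) ^ 2 ≤ ∑' x, f x ^ 2 := by
    have := cut_tsum ℓ f hf'
    simpa only [Real.norm_eq_abs, sq_abs, smul_eq_mul] using this
  have s3 : Summable fun x => (rr ℓ u x) ^ 2 := by
    have := rr_summ ℓ hℓ u hu'
    simpa only [Real.norm_eq_abs, sq_abs] using this
  have s3' : ∑' x, (rr ℓ u x) ^ 2 ≤ (2 * d / ℓ) ^ 2 * ∑' x, u x ^ 2 := by
    have := rr_tsum ℓ hℓ u hu'
    simpa only [Real.norm_eq_abs, sq_abs] using this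
  have hle : ∀ x, (φ ℓ x * f x + rr ℓ u x) ^ 2 ≤ 2 * (φ ℓ x * f x) ^ 2 + 2 * (rr ℓ u x) ^ 2 :=
    fun x => by nlinarith [sq_nonneg (φ ℓ x * f x - rr ℓ u x)]
  have s4 : Summable fun x => (φ ℓ x * f x + rr ℓ u x) ^ 2 :=
    Summable.of_nonneg_of_le (fun x => sq_nonneg _) hle ((s2.mul_left 2).add (s3.mul_left 2))
  have s4' : ∑' x, (φ ℓ x * f x + rr ℓ u x) ^ 2 ≤
      2 * ∑' x, f x ^ 2 + 2 * ((2 * d / ℓ) ^ 2 * ∑' x, u x ^ 2) := by
    refine (s4.tsum_le_tsum hle ((s2.mul_left 2).add (s3.mul_left 2))).trans ?_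
    rw [Summable.tsum_add (s2.mul_left 2) (s3.mul_left 2), tsum_mul_left, tsum_mul_left]
    gcongr
  have h1 := h E (fun x => φ ℓ x * u x) (fun x => φ ℓ x * f x + rr ℓ u x) s1 s4 (fun x => by
    have e1 := comm_eq ℓ u x
    simp only [smul_eq_mul] at e1
    rw [e1]
    have e2 := heq x
    by_cases hx : ‖x‖ < 2 * ℓ
    · rw [← hag x hx]
      linear_combination φ ℓ x * e2
    · have h0 : φ ℓ x = 0 := φ_zero ℓ hℓ x (not_lt.1 hx)
      rw [h0]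
      ring) a ha
  simp only [φ_one ℓ hℓ a (ha.trans hρℓ), one_mul] at h1
  have hSu : 0 ≤ ∑' x, u x ^ 2 := tsum_nonneg fun x => sq_nonneg _
  have hSf : 0 ≤ ∑' x, f x ^ 2 := tsum_nonneg fun x => sq_nonneg _
  refine h1.trans ?_
  have h5 : 4 * t⁻¹ * ((2 * d / ℓ) ^ 2 * ∑' x, u x ^ 2) ≤ 5 * t * ∑' x, u x ^ 2 := by
    calc 4 * t⁻¹ * ((2 * d / ℓ) ^ 2 * ∑' x, u x ^ 2) =
        t⁻¹ * (4 * (2 * d / ℓ) ^ 2) * ∑' x, u x ^ 2 := by ring
      _ ≤ t⁻¹ * (5 * t ^ 2) * ∑' x, u x ^ 2 := by gcongr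
      _ = 5 * t * ∑' x, u x ^ 2 := by
        congr 1
        field_simp
  calc g * (5 * t * ∑' x, (φ ℓ x * u x) ^ 2 + 2 * t⁻¹ * ∑' x, (φ ℓ x * f x + rr ℓ u x) ^ 2) ≤
      g * (5 * t * ∑' x, u x ^ 2 + 2 * t⁻¹ * (2 * ∑' x, f x ^ 2 +
        2 * ((2 * d / ℓ) ^ 2 * ∑' x, u x ^ 2))) := by gcongr
    _ = g * (5 * t * ∑' x, u x ^ 2 + 4 * t⁻¹ * ∑' x, f x ^ 2 +
        4 * t⁻¹ * ((2 * d / ℓ) ^ 2 * ∑' x, u x ^ 2)) := by ring
    _ ≤ g * (5 * t * ∑' x, u x ^ 2 + 4 * t⁻¹ * ∑' x, f x ^ 2 + 5 * t * ∑' x, u x ^ 2) := by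
        gcongr
    _ = _ := by ring

end Pool.Agent.Y661.BG
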