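import Pool.Agent.W788.MF2.Dom

/-! The law of a Gaussian variable cut off at the level `b`. -/

set_option autoImplicit false

open scoped BigOperators ENNReal NNReal
open MeasureTheory ProbabilityTheory

namespace Pool.Agent.Y661.BG

open Pool.Agent.W788.MFP.Gm (γ int_pow)
open Pool.Agent.W788.MF2.Dom

/-- the clipping map -/
noncomputable def cl (b s : ℝ) : ℝ := max (-b) (min b s)

theorem cl_cont (b : ℝ) : Continuous (cl b) := by
  unfold cl
  fun_prop

theorem cl_meas (b : ℝ) : Measurable (cl b) := (cl_cont b).measurable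

theorem cl_abs (b : ℝ) (hb : 0 ≤ b) (s : ℝ) : |cl b s| ≤ b := by
  unfold cl
  rw [abs_le]
  exact ⟨le_max_left _ _, max_le (by linarith) (min_le_left _ _)⟩

theorem cl_eq (b : ℝ) (s : ℝ) (h : |s| ≤ b) : cl b s = s := by
  obtain ⟨h1, h2⟩ := abs_le.1 h
  unfold cl
  rw [min_eq_right h2, max_eq_right h1]

theorem cl_neg (b : ℝ) (hb : 0 ≤ b) (s : ℝ) : cl b (-s) = -cl b s := by
  unfold cl
  rcases le_total s b with h1 | h1 <;> rcases le_total (-b) s with h2 | h2
  · rw [min_eq_right (by linarith : -s ≤ b), max_eq_right (by linarith : -b ≤ -s),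
      min_eq_right h1, max_eq_right h2]
  · rw [min_eq_left (by linarith : b ≤ -s), max_eq_right (by linarith : -b ≤ b),
      min_eq_right h1, max_eq_left h2]
    all_goals ring
  · rw [min_eq_right (by linarith : -s ≤ b), max_eq_left (by linarith : -s ≤ -b),
      min_eq_left h1, max_eq_right (by linarith : -b ≤ b)]
  · have hb0 : b = 0 := by linarith
    subst hb0
    simp at *

/-- the clipped variable lies between `0` and the variable -/
theorem cl_between (b : ℝ) (hb : 0 ≤ b) (s : ℝ) : (0 ≤ cl b s ∧ cl b s ≤ s) ∨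
    (s ≤ cl b s ∧ cl b s ≤ 0) := by
  unfold cl
  rcases le_total 0 s with h | h
  · left
    rw [max_eq_right (by rw [le_min_iff]; constructor <;> linarith)]
    exact ⟨le_min hb h, min_le_right _ _⟩
  · right
    rw [min_eq_right (by linarith)]
    exact ⟨le_max_right _ _, max_le (by linarith) h⟩

/-- the law of the clipped Gaussian -/
noncomputable def nu (b : ℝ) : Measure ℝ := γ.map (cl b)

instance nu_prob (b : ℝ) : IsProbabilityMeasure (nu b) :=
  Measure.isProbabilityMeasure_map (cl_meas b).aemeasurable

theorem nu_bd (b : ℝ) (hb : 0 ≤ b) : ∀ᵐ s ∂(nu b), |s| ≤ b := by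
  unfold nu
  rw [ae_map_iff (cl_meas b).aemeasurable (measurableSet_le (by fun_prop) (by fun_prop))]
  exact Filter.Eventually.of_forall (cl_abs b hb)

theorem map_neg : γ.map (fun s : ℝ => -s) = γ := by
  have h := gaussianReal_map_neg (μ := 0) (v := 1)
  rwa [neg_zero] at h

theorem int_neg (f : ℝ → ℝ) (hf : Continuous f) : ∫ s, f (-s) ∂γ = ∫ s, f s ∂γ := by
  conv_rhs => rw [← map_neg]
  rw [integral_map (by fun_prop) hf.aestronglyMeasurable]

theorem int_nu (f : ℝ → ℝ) (hf : Continuous f) (b : ℝ) :
    ∫ s, f s ∂(nu b) = ∫ s, f (cl b s) ∂γ := by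
  unfold nu
  rw [integral_map (cl_meas b).aemeasurable hf.aestronglyMeasurable]

theorem nu_mean (b : ℝ) (hb : 0 ≤ b) : ∫ s, s ∂(nu b) = 0 := by
  have h1 := int_nu (fun s => s) continuous_id b
  have h2 := int_neg (fun s => cl b s) (cl_cont b)
  simp only [cl_neg b hb, integral_neg] at h2
  rw [h1]
  linarith

/-- the clipped Gaussian law is dominated by the Gaussian law -/
theorem nu_dom (b : ℝ) (hb : 0 ≤ b) : DomBy (nu b) 1 := by
  refine ⟨?_, ?_⟩
  · intro n
    refine Integrable.of_bound (C := b ^ n) (by fun_prop) ?_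
    filter_upwards [nu_bd b hb] with s h
    rw [Real.norm_eq_abs, abs_pow]
    exact pow_le_pow_left₀ (abs_nonneg _) h n
  · intro f hfc hf hfμ hf1 hf2
    simp only [one_mul] at hf1 hf2 ⊢
    rw [int_nu f hfc b]
    have hi1 : Integrable (fun s => f (cl b s)) γ := by
      unfold nu at hfμ
      exact (integrable_map_measure hfc.aestronglyMeasurable (cl_meas b).aemeasurable).1 hfμ
    have hi2 : Integrable (fun s => f (-cl b s)) γ := by
      have h1 : Integrable (fun s => f (cl b s)) (γ.map fun s : ℝ => -s) := by
        rw [map_neg]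
        exact hi1
      have h2 := (integrable_map_measure (hfc.comp (cl_cont b)).aestronglyMeasurable
        (by fun_prop)).1 h1
      refine h2.congr (Filter.Eventually.of_forall fun s => ?_)
      simp only [Function.comp_apply, cl_neg b hb]
    have e1 : ∫ s, f (-cl b s) ∂γ = ∫ s, f (cl b s) ∂γ := by
      have := int_neg (fun s => f (cl b s)) (hfc.comp (cl_cont b))
      simp only [cl_neg b hb] at this
      exact this
    have e2 : ∫ s, f (-s) ∂γ = ∫ s, f s ∂γ := int_neg f hfc
    have key : ∀ s, f (cl b s) + f (-cl b s) ≤ f s + f (-s) := by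
      intro s
      -- the function `r ↦ f r + f (-r)` is monotone on `[0, ∞)`
      have mono : ∀ r R : ℝ, 0 ≤ r → r ≤ R → f r + f (-r) ≤ f R + f (-R) := by
        intro r R hr hrR
        rcases eq_or_lt_of_le (hr.trans hrR) with h0 | h0
        · have : r = 0 := le_antisymm (by linarith) hr
          rw [← h0, this]
        · have c1 : f (((R + r) / (2 * R)) • R + ((R - r) / (2 * R)) • (-R)) ≤
              ((R + r) / (2 * R)) • f R + ((R - r) / (2 * R)) • f (-R) :=
            hf.2 (Set.mem_univ _) (Set.mem_univ _) (by apply div_nonneg <;> linarith)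
              (by apply div_nonneg <;> linarith) (by field_simp; ring)
          have c2 : f (((R - r) / (2 * R)) • R + ((R + r) / (2 * R)) • (-R)) ≤
              ((R - r) / (2 * R)) • f R + ((R + r) / (2 * R)) • f (-R) :=
            hf.2 (Set.mem_univ _) (Set.mem_univ _) (by apply div_nonneg <;> linarith)
              (by apply div_nonneg <;> linarith) (by field_simp; ring)
          have e3 : ((R + r) / (2 * R)) • R + ((R - r) / (2 * R)) • (-R) = r := by
            simp only [smul_eq_mul]
            field_simp
            ring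
          have e4 : ((R - r) / (2 * R)) • R + ((R + r) / (2 * R)) • (-R) = -r := by
            simp only [smul_eq_mul]
            field_simp
            ring
          rw [e3] at c1
          rw [e4] at c2
          have e5 : ((R + r) / (2 * R)) • f R + ((R - r) / (2 * R)) • f (-R) +
              (((R - r) / (2 * R)) • f R + ((R + r) / (2 * R)) • f (-R)) = f R + f (-R) := by
            simp only [smul_eq_mul]
            field_simp
            ring
          linarith
      rcases cl_between b hb s with ⟨h1, h2⟩ | ⟨h1, h2⟩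
      · exact mono _ _ h1 h2
      · have h3 := mono (-cl b s) (-s) (by linarith) (by linarith)
        simp only [neg_neg] at h3
        linarith
    have e3 : ∫ s, (f (cl b s) + f (-cl b s)) ∂γ ≤ ∫ s, (f s + f (-s)) ∂γ :=
      integral_mono (hi1.add hi2) (hf1.add hf2) key
    rw [integral_add hi1 hi2, integral_add hf1 hf2, e1, e2] at e3
    linarith

/-- the Gaussian tail -/
theorem tail (b : ℝ) (hb : 0 ≤ b) :
    γ.real {s | b < |s|} ≤ 2 * Real.exp (-(b ^ 2 / 2)) := by
  have h1 : γ.real {s | b ≤ s} ≤ Real.exp (-(b ^ 2 / 2)) := by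
    have h := measure_ge_le_exp_mul_mgf (μ := γ) (X := id) b hb (by
      have := integrable_exp_mul_gaussianReal (μ := 0) (v := 1) b
      simpa using this)
    have h2 : mgf id γ b = Real.exp (b ^ 2 / 2) := by
      have h3 := congrFun (mgf_id_gaussianReal (μ := 0) (v := 1)) b
      rw [h3]
      simp
    rw [h2, ← Real.exp_add] at h
    refine h.trans (le_of_eq ?_)
    congr 1
    ring
  have h2 : γ.real {s | s ≤ -b} ≤ Real.exp (-(b ^ 2 / 2)) := by
    have e1 : {s : ℝ | s ≤ -b} = (fun s : ℝ => -s) ⁻¹' {s | b ≤ s} := by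
      ext s
      simp only [Set.mem_setOf_eq, Set.mem_preimage]
      constructor <;> intro h <;> linarith
    rw [e1, ← map_measureReal_apply (by fun_prop) (measurableSet_le (by fun_prop) (by fun_prop)),
      map_neg]
    exact h1
  have hsub : {s : ℝ | b < |s|} ⊆ {s | b ≤ s} ∪ {s | s ≤ -b} := by
    intro s hs
    rw [Set.mem_ofPred_eq] at hs
    rcases abs_cases s with ⟨h, _⟩ | ⟨h, _⟩
    · left
      show b ≤ s
      linarith
    · right
      show s ≤ -b
      linarith
  refine (measureReal_mono hsub (measure_ne_top _ _)).trans ((measureReal_union_le _ _).trans ?_)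
  linarith

end Pool.Agent.Y661.BG
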