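import Pool.Agent.W788.BK.NumOK
import Pool.Agent.W788.BK.Prob

/-! The numerical conditions when the bound of the law grows. -/

set_option autoImplicit false

open Filter

namespace Pool.Agent.Y661.BG

open Pool.Agent.W788.BK Pool.Agent.W788.BK.Num

theorem numG (d : ℕ) (C A1 CQ : ℝ) (hC : 0 < C) :
    ∀ᶠ y : ℝ in atTop, NumOK d (C * Real.exp (1 / 200 * y)) 1 A1 CQ y := by
  filter_upwards [eventually_ge_atTop 1, ev2 6 (-(79 / 40)) 0 0 (by norm_num),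
    ev2 (8 * d + 5) (17 / 8) 6 0 (by norm_num), ev2 125 (237 / 40) 12 0 (by norm_num),
    ev2 2 (23 / 30) 6 0 (by norm_num), ev2 (C * A1) (1 / 200 + -1) (-(3 / 20)) 1 (by norm_num),
    ev2 (C ^ 2 * A1) (1 / 100 + -(1 / 40)) 0 1 (by norm_num),
    ev2 (16 * C ^ 3 * A1 ^ 2) (3 / 200 + -(23 / 40)) 0 2 (by norm_num),
    ev2 (64 * C ^ 3 * CQ * A1) (3 / 200 + -(1 / 24)) 0 3 (by norm_num),
    ev2 (8 * C ^ 2) (1 / 100 + -(1 / 20)) 0 0 (by norm_num),
    ev2 (32 * C ^ 2 * CQ) (1 / 100 + -(79 / 240)) (-(3 / 10)) 2 (by norm_num),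
    ev2 (4 * C ^ 2 * A1 ^ 2) (1 / 100 + -(7 / 5)) (-(3 / 10)) 2 (by norm_num),
    ev2 4 (-(3 / 20)) 0 0 (by norm_num),
    ev2 (192 * A1 * 1 ^ 2) (-(1 / 200)) 0 1 (by norm_num),
    ev2 2 6 7 0 (by norm_num),
    ev4 (12 * d + 12) 1 (1 / 50) (by norm_num) (by norm_num),
    ev4 (12 * d + 12) (1 / (4 * C ^ 2)) (1 / 25) (by positivity) (by norm_num),
    ev4 (12 * d + 12) (1 / 4) (3 / 20) (by norm_num) (by norm_num)] with
    y h1 h2 h3 h4 h5 h6 h7 h8 h9 h10 h11 h12 h13 h14 h15 h16 h17 h18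
  simp only [pow_zero, mul_one, pow_one, zero_mul, Real.exp_zero]
    at h2 h3 h4 h5 h6 h7 h8 h9 h10 h11 h12 h13 h14 h15 h16
  simp only [add_mul _ _ y, Real.exp_add] at h6 h7 h8 h9 h10 h11 h12
  have p2 : Real.exp (1 / 100 * y) = Real.exp (1 / 200 * y) ^ 2 := by
    rw [ex_pow]
    congr 1
    push_cast
    ring
  have p3 : Real.exp (3 / 200 * y) = Real.exp (1 / 200 * y) ^ 3 := by
    rw [ex_pow]
    congr 1
    push_cast
    ring
  rw [p2] at h7 h10 h11 h12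
  rw [p3] at h8 h9
  constructor
  · exact h1
  · linarith
  · exact h3
  · exact h4
  · exact h5
  · calc _ = C * A1 * y * (Real.exp (1 / 200 * y) * Real.exp (-1 * y)) := by ring
      _ ≤ _ := h6
  · calc _ = C ^ 2 * A1 * y * (Real.exp (1 / 200 * y) ^ 2 * Real.exp (-(1 / 40) * y)) := by ring
      _ ≤ _ := h7
  · calc _ = 16 * C ^ 3 * A1 ^ 2 * y ^ 2 *
          (Real.exp (1 / 200 * y) ^ 3 * Real.exp (-(23 / 40) * y)) := by ring
      _ ≤ _ := h8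
  · calc _ = 64 * C ^ 3 * CQ * A1 * y ^ 3 *
          (Real.exp (1 / 200 * y) ^ 3 * Real.exp (-(1 / 24) * y)) := by ring
      _ ≤ _ := h9
  · calc _ = 8 * C ^ 2 * (Real.exp (1 / 200 * y) ^ 2 * Real.exp (-(1 / 20) * y)) := by ring
      _ ≤ _ := h10
  · calc _ = 32 * C ^ 2 * CQ * y ^ 2 *
          (Real.exp (1 / 200 * y) ^ 2 * Real.exp (-(79 / 240) * y)) := by ring
      _ ≤ _ := h11
  · calc _ = 4 * C ^ 2 * A1 ^ 2 * y ^ 2 *
          (Real.exp (1 / 200 * y) ^ 2 * Real.exp (-(7 / 5) * y)) := by ring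
      _ ≤ _ := h12
  · linarith
  · linarith
  · exact h15
  · linarith
  · refine h17.trans (le_of_eq ?_)
    have e1 : Real.exp (1 / 20 * y) = Real.exp (1 / 200 * y) ^ 2 * Real.exp (1 / 25 * y) := by
      rw [← p2, ex_mul]
      norm_num
    rw [e1]
    field_simp
  · exact h18

end Pool.Agent.Y661.BG
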