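import Pool.Agent.W788.BK.Param
import Pool.Agent.Y661.BG.Num

/-! The engine when the bound of the law grows with the inverse coupling (after
`Pool.Agent.W788.BK.Param`). -/

set_option autoImplicit false
set_option linter.unusedSectionVars false

open scoped BigOperators Matrix
open MeasureTheory

namespace Pool.Agent.Y661.BG

open Pool.Agent.W788.BK
open Pool.Agent.W788.MFP.Four (T e NN adj K ft Op q NN_pos e_zero)
open Pool.Agent.W788.MFP.Form (J)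
open Pool.Agent.W788.MF2.Dom Pool.Agent.W788.MF2.FormG
open Pool.Agent.H4R2.LO (Zd)
open Pool.Agent.W788.BK.Num

/-- **the engine** -/
theorem engineG (hTH : S_THIRD) (hFL : S_FLUCT) (hIN : S_INV) (hMB : S_MB) (hCO : S_CONC)
    (hSU : S_SUP) (hSI : S_SITE) (hQB : S_QB) (hLO : S_LOW) (hAD : S_ADM)
    (d : ℕ) (hd : 3 ≤ d) (C : ℝ) (hC : 0 < C) : ∃ y0 : ℝ, ∀ y : ℝ, y0 ≤ y →
    ∀ (ν : Measure ℝ), IsProbabilityMeasure ν → (∀ᵐ s ∂ν, |s| ≤ C * Real.exp (1 / 200 * y)) →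
    ∫ s, s ∂ν = 0 → DomBy ν 1 →
    ∃ G : Set (Zd d → ℝ), MeasurableSet G ∧
      1 - Real.exp (-Real.exp (y / 100)) ≤ (Measure.infinitePi fun _ : Zd d => ν).real G ∧
      ∀ ξ ∈ G, SM1 d (Real.exp (-1 * y)) (Real.exp (Real.exp (y / 100)))
        (Real.exp (-(17 / 8) * y)) (192 * (C1 * (17 / 8 * y))) ξ := by
  obtain ⟨CQ, hCQ, hqb⟩ := hQB
  obtain ⟨A1, hA1⟩ : ∃ A1, A1 = 2 * C1 + 2 := ⟨_, rfl⟩
  obtain ⟨y0, hy0⟩ := Filter.eventually_atTop.1 (numG d C A1 CQ hC)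
  refine ⟨y0, fun y hy ν hν hνb hν0 hdom => ?_⟩
  have hN := hy0 y hy
  obtain ⟨b, hbdef⟩ : ∃ b, b = C * Real.exp (1 / 200 * y) := ⟨_, rfl⟩
  have hb : 0 < b := by rw [hbdef]; positivity
  obtain ⟨c, hc⟩ : ∃ c : ℝ, c = 1 := ⟨_, rfl⟩
  rw [← hbdef] at hN hνb
  rw [← hc] at hN hdom
  have hC1 := C1_ge
  have hd3 : (3 : ℝ) ≤ d := by exact_mod_cast hd
  have hy1 := hN.y1
  -- the parameters
  obtain ⟨σ, hσ⟩ : ∃ σ, σ = Real.exp (-1 * y) := ⟨_, rfl⟩
  obtain ⟨δ, hδ⟩ : ∃ δ, δ = Real.exp (-(79 / 40) * y) := ⟨_, rfl⟩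
  obtain ⟨η, hη⟩ : ∃ η, η = Real.exp (-(3 / 20) * y) := ⟨_, rfl⟩
  obtain ⟨t, ht⟩ : ∃ t, t = Real.exp (-(17 / 8) * y) := ⟨_, rfl⟩
  have htηδ : η * δ = t := by
    rw [hη, hδ, ht, ex_mul]
    norm_num
  obtain ⟨κ, hκ⟩ : ∃ κ : ℝ, κ = 23 / (10 * d) := ⟨_, rfl⟩
  have hκ1 : κ ≤ 23 / 30 := by
    rw [hκ, div_le_div_iff₀ (by positivity) (by norm_num)]
    linarith
  have hκ0 : 0 < κ := by rw [hκ]; positivity
  have hκd : d * κ = 23 / 10 := by
    rw [hκ]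
    field_simp
  obtain ⟨θ, hθ⟩ : ∃ θ, θ = 1 / 2 * Real.exp (-κ * y) := ⟨_, rfl⟩
  obtain ⟨L, hL⟩ : ∃ L : ℕ, L = ⌈Real.exp (6 * y)⌉₊ := ⟨_, rfl⟩
  have hσ0 : 0 < σ := by rw [hσ]; positivity
  have hδ0 : 0 < δ := by rw [hδ]; positivity
  have hη0 : 0 < η := by rw [hη]; positivity
  have ht0 : 0 < t := by rw [ht]; positivity
  have hθ0 : 0 < θ := by rw [hθ]; positivity
  have hη1 : η ≤ 1 := by
    rw [hη]
    linarith [hN.n13]
  have hδ6 : δ ≤ 1 / 6 := by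
    rw [hδ]
    linarith [hN.n1]
  have hL1 : Real.exp (6 * y) ≤ L := by
    rw [hL]
    exact Nat.le_ceil _
  have hL2 : (L : ℝ) ≤ Real.exp (7 * y) := by
    have h1 := Nat.ceil_lt_add_one (show 0 ≤ Real.exp (6 * y) by positivity)
    rw [← hL] at h1
    have h2 := hN.n15
    have h3 : (1 : ℝ) ≤ Real.exp (6 * y) := Real.one_le_exp (by linarith)
    linarith
  have hLp : (0 : ℝ) < L := lt_of_lt_of_le (by positivity) hL1
  have hLne : NeZero L := ⟨by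
    intro h0
    rw [h0] at hLp
    simp at hLp⟩
  have hθ1 : θ ≤ 1 := by
    rw [hθ]
    have : Real.exp (-κ * y) ≤ 1 := Real.exp_le_one_iff.2 (by nlinarith)
    linarith
  have hθd : (2 * θ) ^ d = Real.exp (-(23 / 10) * y) := by
    rw [hθ, ← mul_assoc]
    norm_num
    rw [← neg_mul, ex_pow]
    congr 1
    rw [mul_neg, hκd]
    ring
  have hθL : 1 ≤ θ * L := by
    have h1 := hN.n5
    have h2 : Real.exp (κ * y) ≤ Real.exp (23 / 30 * y) := by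
      apply Real.exp_le_exp.2
      apply mul_le_mul_of_nonneg_right hκ1
      linarith
    have h3 : Real.exp (-κ * y) * Real.exp (κ * y) = 1 := by
      rw [ex_mul]
      simp
    calc (1 : ℝ) = 1 / 2 * (Real.exp (-κ * y) * (2 * Real.exp (κ * y))) := by
          linear_combination (-1) * h3
      _ ≤ 1 / 2 * (Real.exp (-κ * y) * L) := by
          have : 2 * Real.exp (κ * y) ≤ L := by linarith
          gcongr
      _ = _ := by rw [hθ]; ring
  -- the momenta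
  obtain ⟨N, hNdef⟩ : ∃ N, N = NN d L := ⟨_, rfl⟩
  have hN0 : 0 < N := by rw [hNdef]; exact NN_pos
  obtain ⟨cnt, hcnt⟩ : ∃ cnt, cnt = ∑ Q : T d L, (1 - hi θ Q) := ⟨_, rfl⟩
  have hcnt1 : 1 ≤ cnt := by rw [hcnt]; exact cnt_ge θ
  have hcnt2 : cnt ≤ 2 * Real.exp (-(23 / 10) * y) * N := by
    rw [hcnt, hNdef, ← hθd]
    exact hLO d L θ hθ0.le hθ1 hθL
  have hLδ : 1 / (L : ℝ) ≤ t := by
    rw [div_le_iff₀ hLp]
    have h1 : Real.exp (-(17 / 8) * y) * Real.exp (6 * y) ≤ t * L := by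
      rw [← ht]
      gcongr
    rw [ex_mul] at h1
    have h2 : (1 : ℝ) ≤ Real.exp ((-(17 / 8) + 6) * y) := Real.one_le_exp (by linarith)
    linarith
  have htδ : t ≤ δ := by
    rw [← htηδ]
    exact mul_le_of_le_one_left hδ0.le hη1
  obtain ⟨g1, hg1⟩ : ∃ g1, g1 = C1 * (79 / 40 * y) := ⟨_, rfl⟩
  obtain ⟨g, hg⟩ : ∃ g, g = C1 * (17 / 8 * y) := ⟨_, rfl⟩
  have hlogδ : Real.log (1 / δ) = 79 / 40 * y := by
    rw [hδ, one_div, Real.log_inv, Real.log_exp]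
    ring
  have hlogt : Real.log (1 / t) = 17 / 8 * y := by
    rw [ht, one_div, Real.log_inv, Real.log_exp]
    ring
  have hg10 : 0 ≤ g1 := by rw [hg1]; positivity
  have hg1A : g1 + 2 ≤ A1 * y := by
    rw [hg1, hA1]
    nlinarith
  have hA10 : 0 < A1 := by rw [hA1]; linarith
  have hgg1 : 1 ≤ g := by
    rw [hg]
    nlinarith
  have hδ2 : δ ≤ 1 / 2 := by linarith
  have ht2 : t ≤ 1 / 2 := htδ.trans hδ2
  have hsumδ : ∀ E : ℝ, ∑ k : T d L, (JJ E δ k)⁻¹ ≤ g1 * N := by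
    intro E
    have h1 := sumJ (d := d) (L := L) hd δ (hLδ.trans htδ) hδ2 E
    rw [hlogδ, ← hg1, ← hNdef] at h1
    exact h1
  have hsumt : ∀ E : ℝ, ∑ k : T d L, (JJ E t k)⁻¹ ≤ g * N := by
    intro E
    have h1 := sumJ (d := d) (L := L) hd t hLδ ht2 E
    rw [hlogt, ← hg, ← hNdef] at h1
    exact h1
  have hGB : GB d L δ g1 := by
    intro E
    have h1 := hsumδ E
    rw [inv_mul_le_iff₀ NN_pos, ← hNdef]
    have h2 : ∑ k : T d L, (J E δ k)⁻¹ = ∑ k : T d L, (JJ E δ k)⁻¹ := rfl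
    rw [h2]
    linarith
  have hL43 : (1 + 4 / δ) ^ 3 ≤ (L : ℝ) ^ 2 := by
    have h1 : 1 + 4 / δ ≤ 5 * Real.exp (79 / 40 * y) := by
      have h2 : 4 / δ = 4 * Real.exp (79 / 40 * y) := by
        rw [hδ, div_eq_mul_inv, ex_inv]
        norm_num
      have h3 : (1 : ℝ) ≤ Real.exp (79 / 40 * y) := Real.one_le_exp (by linarith)
      rw [h2]
      linarith
    have h2 := hN.n4
    calc (1 + 4 / δ) ^ 3 ≤ (5 * Real.exp (79 / 40 * y)) ^ 3 := by gcongr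
      _ = 125 * Real.exp (237 / 40 * y) := by
          rw [mul_pow, ex_pow]
          norm_num
      _ ≤ Real.exp (12 * y) := h2
      _ = Real.exp (6 * y) ^ 2 := by
          rw [ex_pow]
          norm_num
      _ ≤ (L : ℝ) ^ 2 := by gcongr
  obtain ⟨Q, hQ⟩ : ∃ Q, Q = CQ * Real.log (1 / δ) ^ 2 / Real.sqrt (δ * θ) := ⟨_, rfl⟩
  have hQ0 : 0 ≤ Q := by rw [hQ]; positivity
  obtain ⟨a, ha⟩ : ∃ a, a = g1 + cnt / (N * δ) := ⟨_, rfl⟩
  obtain ⟨v2, hv2⟩ : ∃ v2, v2 = g1 / δ := ⟨_, rfl⟩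
  have hadm : ∀ E, Adm (D0 E δ) (AA (d := d) (L := L) E δ θ) a v2 Q := by
    intro E
    rw [ha, hv2, hcnt, hNdef]
    refine hAD d L E δ θ g1 Q hδ0 hg10 hQ0 (by rw [← hNdef]; exact hsumδ E) ?_
    intro P hP
    rw [hQ]
    exact hqb d L hd θ δ E hθ0 hθ1 hδ0 hδ2 hL43 P hP
  -- bounds of the parameters
  have hδinv : δ⁻¹ = Real.exp (79 / 40 * y) := by
    rw [hδ, ex_inv]
    norm_num
  have ha1 : a ≤ A1 * y := by
    refine le_trans ?_ hg1A
    rw [ha]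
    have h1 : cnt / (N * δ) ≤ 2 := by
      rw [div_le_iff₀ (by positivity)]
      have h2 : Real.exp (-(23 / 10) * y) ≤ δ := by
        rw [hδ]
        apply Real.exp_le_exp.2
        linarith
      calc cnt ≤ 2 * Real.exp (-(23 / 10) * y) * N := hcnt2
        _ ≤ 2 * δ * N := by gcongr
        _ = _ := by ring
    linarith
  have ha0 : 0 ≤ a := by rw [ha]; positivity
  have hv21 : v2 ≤ A1 * y * Real.exp (79 / 40 * y) := by
    rw [hv2, div_eq_mul_inv, hδinv]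
    have : g1 ≤ A1 * y := by linarith
    gcongr
  have hv20 : 0 ≤ v2 := by rw [hv2]; positivity
  have hQ1 : Q ≤ 8 * CQ * y ^ 2 * Real.exp (329 / 240 * y) := by
    rw [hQ, hlogδ, div_eq_mul_inv]
    have h1 : (Real.sqrt (δ * θ))⁻¹ ≤ 2 * Real.exp (329 / 240 * y) := by
      have h2 : (1 / 2 * Real.exp (-(329 / 240) * y)) ≤ Real.sqrt (δ * θ) := by
        apply Real.le_sqrt_of_sq_le
        have h3 : Real.exp (-(23 / 30) * y) ≤ Real.exp (-κ * y) := by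
          apply Real.exp_le_exp.2
          have := mul_le_mul_of_nonneg_right hκ1 (show (0 : ℝ) ≤ y by linarith)
          linarith
        calc (1 / 2 * Real.exp (-(329 / 240) * y)) ^ 2 =
            1 / 4 * (Real.exp (-(79 / 40) * y) * Real.exp (-(23 / 30) * y)) := by
              rw [mul_pow, ex_pow, ex_mul]
              norm_num
          _ ≤ 1 / 4 * (Real.exp (-(79 / 40) * y) * Real.exp (-κ * y)) := by gcongr
          _ ≤ 1 / 2 * (Real.exp (-(79 / 40) * y) * Real.exp (-κ * y)) := by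
              have : 0 < Real.exp (-(79 / 40) * y) * Real.exp (-κ * y) := by positivity
              linarith
          _ = _ := by
              rw [hδ, hθ]
              ring
      have h3 : (Real.sqrt (δ * θ))⁻¹ ≤ (1 / 2 * Real.exp (-(329 / 240) * y))⁻¹ :=
        inv_anti₀ (by positivity) h2
      refine h3.trans (le_of_eq ?_)
      rw [mul_inv, ex_inv]
      norm_num
    calc CQ * (79 / 40 * y) ^ 2 * (Real.sqrt (δ * θ))⁻¹ ≤
        CQ * (2 * y) ^ 2 * (2 * Real.exp (329 / 240 * y)) := by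
          have : 79 / 40 * y ≤ 2 * y := by linarith
          gcongr
      _ = _ := by ring
  -- the law
  obtain ⟨μ, hμdef⟩ : ∃ μ, μ = ν.map fun s => σ * s := ⟨_, rfl⟩
  have hmσ : Measurable fun s : ℝ => σ * s := by fun_prop
  have hμp : IsProbabilityMeasure μ := by
    rw [hμdef]
    exact Measure.isProbabilityMeasure_map hmσ.aemeasurable
  obtain ⟨β, hβ⟩ : ∃ β, β = b * σ := ⟨_, rfl⟩
  have hβ0 : 0 < β := by rw [hβ]; positivity
  have hμb : ∀ᵐ s ∂μ, |s| ≤ β := by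
    rw [hμdef, ae_map_iff hmσ.aemeasurable (measurableSet_le (by fun_prop) (by fun_prop))]
    filter_upwards [hνb] with s hs
    rw [abs_mul, abs_of_pos hσ0, hβ, mul_comm b]
    gcongr
  have hμ0 : ∫ s, s ∂μ = 0 := by
    rw [hμdef, integral_map hmσ.aemeasurable (by fun_prop), integral_const_mul, hν0, mul_zero]
  obtain ⟨s2, hs2⟩ : ∃ s2, ∫ s, s ^ 2 ∂μ = s2 := ⟨_, rfl⟩
  have hs20 : 0 ≤ s2 := by
    rw [← hs2]
    exact integral_nonneg fun s => sq_nonneg _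
  have hs2β : s2 ≤ β ^ 2 := by
    rw [← hs2]
    have h1 : ∫ s, s ^ 2 ∂μ ≤ ∫ _s, β ^ 2 ∂μ := by
      apply integral_mono_of_nonneg (Filter.Eventually.of_forall fun s => sq_nonneg _)
        (integrable_const _)
      filter_upwards [hμb] with s hs
      rw [← sq_abs s]
      exact pow_le_pow_left₀ (abs_nonneg _) hs 2
    rw [integral_const, probReal_univ, one_smul] at h1
    exact h1
  have hββ : β = b * Real.exp (-1 * y) := by rw [hβ, hσ]
  have hηinv : η⁻¹ = Real.exp (3 / 20 * y) := by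
    rw [hη, ex_inv]
    norm_num
  have hAy1 : 1 ≤ A1 * y := by linarith
  -- the conditions
  have k1 : β * a ≤ η := by
    calc β * a ≤ (b * Real.exp (-1 * y)) * (A1 * y) := by
          rw [hββ]
          gcongr
      _ = b * A1 * y * Real.exp (-1 * y) := by ring
      _ ≤ η := by
          rw [hη]
          exact hN.n6
  have k2 : β ^ 2 * v2 ≤ 1 := by
    calc β ^ 2 * v2 ≤ (b * Real.exp (-1 * y)) ^ 2 * (A1 * y * Real.exp (79 / 40 * y)) := by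
          rw [hββ]
          gcongr
      _ = b ^ 2 * A1 * y * (Real.exp (-1 * y) ^ 2 * Real.exp (79 / 40 * y)) := by ring
      _ = b ^ 2 * A1 * y * Real.exp (-(1 / 40) * y) := by
          rw [ex_pow, ex_mul]
          norm_num
      _ ≤ 1 := hN.n7
  have hsv : Real.sqrt v2 ≤ A1 * y * Real.exp (79 / 80 * y) := by
    rw [Real.sqrt_le_left (by positivity)]
    calc v2 ≤ A1 * y * Real.exp (79 / 40 * y) := hv21
      _ ≤ (A1 * y) * (A1 * y) * Real.exp (79 / 40 * y) := by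
          have : A1 * y * 1 ≤ (A1 * y) * (A1 * y) := by gcongr
          rw [mul_one] at this
          gcongr
      _ = (A1 * y * Real.exp (79 / 80 * y)) ^ 2 := by
          rw [mul_pow, ex_pow]
          norm_num
          ring
  have k3 : 4 * β ^ 3 * a * v2 / η ^ 3 + s2 * (2 * β * Q * Real.sqrt v2 / η ^ 4) ≤ 1 / 2 := by
    have h1 : 4 * β ^ 3 * a * v2 / η ^ 3 ≤ 1 / 4 := by
      calc 4 * β ^ 3 * a * v2 / η ^ 3 = 4 * β ^ 3 * a * v2 * (η⁻¹) ^ 3 := by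
            rw [inv_pow, div_eq_mul_inv]
        _ ≤ 4 * (b * Real.exp (-1 * y)) ^ 3 * (A1 * y) * (A1 * y * Real.exp (79 / 40 * y)) *
            (Real.exp (3 / 20 * y)) ^ 3 := by
            rw [hββ, hηinv]
            gcongr
        _ = 1 / 4 * (16 * b ^ 3 * A1 ^ 2 * y ^ 2 * (Real.exp (-1 * y) ^ 3 *
            Real.exp (79 / 40 * y) * Real.exp (3 / 20 * y) ^ 3)) := by ring
        _ = 1 / 4 * (16 * b ^ 3 * A1 ^ 2 * y ^ 2 * Real.exp (-(23 / 40) * y)) := by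
            rw [ex_pow, ex_pow, ex_mul, ex_mul]
            norm_num
        _ ≤ 1 / 4 := by linarith [hN.n8]
    have h2 : s2 * (2 * β * Q * Real.sqrt v2 / η ^ 4) ≤ 1 / 4 := by
      calc s2 * (2 * β * Q * Real.sqrt v2 / η ^ 4) =
            s2 * (2 * β * Q * Real.sqrt v2 * (η⁻¹) ^ 4) := by
            rw [inv_pow, div_eq_mul_inv]
        _ ≤ (b * Real.exp (-1 * y)) ^ 2 * (2 * (b * Real.exp (-1 * y)) *
            (8 * CQ * y ^ 2 * Real.exp (329 / 240 * y)) * (A1 * y * Real.exp (79 / 80 * y)) *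
            (Real.exp (3 / 20 * y)) ^ 4) := by
            rw [hββ] at hs2β ⊢
            rw [hηinv]
            gcongr
        _ = 1 / 4 * (64 * b ^ 3 * CQ * A1 * y ^ 3 * (Real.exp (-1 * y) ^ 2 * Real.exp (-1 * y) *
            Real.exp (329 / 240 * y) * Real.exp (79 / 80 * y) * Real.exp (3 / 20 * y) ^ 4)) := by
            ring
        _ = 1 / 4 * (64 * b ^ 3 * CQ * A1 * y ^ 3 * Real.exp (-(1 / 24) * y)) := by
            rw [ex_pow, ex_pow, ex_mul, ex_mul, ex_mul, ex_mul]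
            norm_num
        _ ≤ 1 / 4 := by linarith [hN.n9]
    linarith
  have k4 : s2 * cnt ≤ η ^ 2 * δ ^ 2 / 4 * N := by
    calc s2 * cnt ≤ (b * Real.exp (-1 * y)) ^ 2 * (2 * Real.exp (-(23 / 10) * y) * N) := by
          rw [hββ] at hs2β
          gcongr
      _ = 1 / 4 * (8 * b ^ 2 * (Real.exp (-1 * y) ^ 2 * Real.exp (-(23 / 10) * y))) * N := by ring
      _ = 1 / 4 * (8 * b ^ 2 * Real.exp (-(1 / 20) * y) * Real.exp (-(17 / 4) * y)) * N := by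
          rw [ex_pow, ex_mul, mul_assoc (8 * b ^ 2), ex_mul]
          norm_num
      _ ≤ 1 / 4 * (1 * Real.exp (-(17 / 4) * y)) * N := by
          have := hN.n10
          gcongr
      _ = η ^ 2 * δ ^ 2 / 4 * N := by
          have : η ^ 2 * δ ^ 2 = Real.exp (-(17 / 4) * y) := by
            rw [← mul_pow, htηδ, ht, ex_pow]
            norm_num
          rw [this]
          ring
  obtain ⟨D, hD⟩ : ∃ D, D = Real.exp (-(3 / 20) * y) := ⟨_, rfl⟩
  have hD0 : 0 < D := by rw [hD]; positivity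
  have hD4 : D ≤ 1 / 4 := by
    rw [hD]
    linarith [hN.n13]
  have hD2 : D ^ 2 = Real.exp (-(3 / 10) * y) := by
    rw [hD, ex_pow]
    norm_num
  have k5 : 2 * β ^ 2 / η ^ 2 * (Q + a ^ 2 / η ^ 2) ≤ D ^ 2 := by
    have h1 : 2 * β ^ 2 * (η⁻¹) ^ 2 * Q ≤ 1 / 2 * Real.exp (-(3 / 10) * y) := by
      calc 2 * β ^ 2 * (η⁻¹) ^ 2 * Q ≤ 2 * (b * Real.exp (-1 * y)) ^ 2 *
            (Real.exp (3 / 20 * y)) ^ 2 * (8 * CQ * y ^ 2 * Real.exp (329 / 240 * y)) := by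
            rw [hββ, hηinv]
            gcongr
        _ = 1 / 2 * (32 * b ^ 2 * CQ * y ^ 2 * (Real.exp (-1 * y) ^ 2 *
            Real.exp (3 / 20 * y) ^ 2 * Real.exp (329 / 240 * y))) := by ring
        _ = 1 / 2 * (32 * b ^ 2 * CQ * y ^ 2 * Real.exp (-(79 / 240) * y)) := by
            rw [ex_pow, ex_pow, ex_mul, ex_mul]
            norm_num
        _ ≤ _ := by linarith [hN.n11]
    have h2 : 2 * β ^ 2 * (η⁻¹) ^ 2 * (a ^ 2 * (η⁻¹) ^ 2) ≤ 1 / 2 * Real.exp (-(3 / 10) * y) := by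
      calc 2 * β ^ 2 * (η⁻¹) ^ 2 * (a ^ 2 * (η⁻¹) ^ 2) ≤ 2 * (b * Real.exp (-1 * y)) ^ 2 *
            (Real.exp (3 / 20 * y)) ^ 2 * ((A1 * y) ^ 2 * (Real.exp (3 / 20 * y)) ^ 2) := by
            rw [hββ, hηinv]
            gcongr
        _ = 1 / 2 * (4 * b ^ 2 * A1 ^ 2 * y ^ 2 * (Real.exp (-1 * y) ^ 2 *
            Real.exp (3 / 20 * y) ^ 2 * Real.exp (3 / 20 * y) ^ 2)) := by ring
        _ = 1 / 2 * (4 * b ^ 2 * A1 ^ 2 * y ^ 2 * Real.exp (-(7 / 5) * y)) := by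
            rw [ex_pow, ex_pow, ex_mul, ex_mul]
            norm_num
        _ ≤ _ := by linarith [hN.n12]
    rw [hD2]
    calc 2 * β ^ 2 / η ^ 2 * (Q + a ^ 2 / η ^ 2) = 2 * β ^ 2 * (η⁻¹) ^ 2 * Q +
          2 * β ^ 2 * (η⁻¹) ^ 2 * (a ^ 2 * (η⁻¹) ^ 2) := by
          rw [inv_pow, div_eq_mul_inv, div_eq_mul_inv]
          ring
      _ ≤ _ := by linarith
  -- the numbers `M` and `ℓ`
  obtain ⟨M, hM⟩ : ∃ M : ℕ, M = ⌈(2 * d + 1) / t⌉₊ := ⟨_, rfl⟩
  have hM1 : (2 * d + 1) ≤ η * δ * M := by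
    have h1 : (2 * (d : ℝ) + 1) / t ≤ M := by
      rw [hM]
      exact Nat.le_ceil _
    rw [div_le_iff₀ ht0] at h1
    rw [htηδ]
    linarith
  have htinv : t⁻¹ = Real.exp (17 / 8 * y) := by
    rw [ht, ex_inv]
    norm_num
  have hM2 : (2 * M + 1 : ℝ) ≤ (4 * d + 5) * Real.exp (17 / 8 * y) := by
    have h1 := Nat.ceil_lt_add_one (show 0 ≤ (2 * (d : ℝ) + 1) / t by positivity)
    rw [← hM, div_eq_mul_inv, htinv] at h1
    have h2 : (1 : ℝ) ≤ Real.exp (17 / 8 * y) := Real.one_le_exp (by linarith)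
    linarith
  obtain ⟨ℓ, hℓ⟩ : ∃ ℓ, ℓ = 2 * d / t := ⟨_, rfl⟩
  have hℓ1 : 2 * d ≤ η * δ * ℓ := by
    rw [htηδ, hℓ]
    have : t * (2 * d / t) = 2 * d := by field_simp
    linarith
  have hL4 : 4 * ℓ + 4 < L := by
    rw [hℓ, div_eq_mul_inv, htinv]
    have h2 : (1 : ℝ) ≤ Real.exp (17 / 8 * y) := Real.one_le_exp (by linarith)
    have h3 := hN.n3
    linarith
  have hmeas : MeasurableSet (Good (d := d) (L := L) δ θ η g M) :=
    good_meas δ θ η g M hη0 (fun E => (hadm E).hX0) (fun E => (hadm E).hA)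
  have hgood := good_prob (d := d) (L := L) hTH hFL hIN hMB hCO hSU δ θ η a v2 Q β s2 g D M hδ0
    hη0 hη1 hadm μ hβ0 hμb hμ0 hs2 hs20 k1 k2 k3
    (by rw [htηδ, ← hNdef]; exact hsumt) (by rw [← hcnt, ← hNdef]; exact k4) hD0 hD4 k5
  rw [hμdef, htηδ, ← hcnt, ← hNdef] at hgood
  obtain ⟨p, hp⟩ : ∃ p : ℕ, p = ⌈Real.exp (1 / 50 * y)⌉₊ := ⟨_, rfl⟩
  have hp1 : Real.exp (1 / 50 * y) ≤ p := by
    rw [hp]
    exact Nat.le_ceil _
  have hp0 : p ≠ 0 := by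
    intro h0
    rw [h0] at hp1
    have := Real.exp_pos (1 / 50 * y)
    push_cast at hp1
    linarith
  obtain ⟨ρ, hρ⟩ : ∃ ρ, ρ = Real.exp (Real.exp (y / 100)) := ⟨_, rfl⟩
  have hρ1 : 1 ≤ ρ := by
    rw [hρ]
    exact Real.one_le_exp (Real.exp_pos _).le
  have hfin := mainB (L := L) hSI (by omega) ν c hdom σ ρ δ θ η g g1 ℓ M hσ0 hρ1 hδ0 hδ6 hη0 hη1
    hgg1 hGB hM1 hℓ1 hL4 hmeas p hp0 _ (Real.exp (-Real.exp (y / 100))) hgood ?_
  · rw [← hσ, ← hρ, ← ht, ← hg, ← htηδ]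
    exact hfin
  -- the probability
  obtain ⟨Y, hY⟩ : ∃ Y, Y = Real.exp (y / 100) := ⟨_, rfl⟩
  have hρY : ρ = Real.exp Y := by rw [hρ, hY]
  have hg1A' : g1 ≤ A1 * y := by linarith
  have hNL : N = (L : ℝ) ^ d := hNdef
  have t1 := pr1 d b c A1 CQ y hN Y ρ δ σ g1 L p hY hρY hL2 hA10.le hδinv hδ0 hσ hg10 hg1A' hp
  have t2 := pr2 d b c A1 CQ y hb hN Y ρ t β N cnt L hY hρY hL2 hNL hN0 ht hββ hcnt1 hcnt2
  have t3 := pr3 d b c A1 CQ y hN Y ρ D L M hY hρY hL2 hD hM2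
  rw [← hY, mul_add, mul_add]
  exact pr4 Y _ _ _ t1 t2 t3

end Pool.Agent.Y661.BG
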