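import Pool.Agent.Y661.BG.Dom
import Pool.Agent.W788.BK.Lat

/-! From the clipped Gaussian field to the Gaussian field. -/

set_option autoImplicit false
set_option linter.unusedSectionVars false

open scoped BigOperators
open MeasureTheory ProbabilityTheory

namespace Pool.Agent.Y661.BG

open Pool.Agent.H4R2 Pool.Agent.W788.MF2.FinG
open Pool.Agent.H4R2.LO (Zd)
open Pool.Agent.W788.MFP.Gm (γ)

variable {d : ℕ}

/-- the Gaussian field -/
noncomputable abbrev Pg (d : ℕ) : Measure (Zd d → ℝ) := Measure.infinitePi fun _ : Zd d => γ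

theorem site_tail (b : ℝ) (hb : 0 ≤ b) (x : Zd d) :
    (Pg d).real {ξ | b < |ξ x|} ≤ 2 * Real.exp (-(b ^ 2 / 2)) := by
  have h1 : (Pg d).real {ξ | b < |ξ x|} = γ.real {s | b < |s|} := by
    have h2 : (Pg d).map (fun ξ : Zd d → ℝ => ξ x) = γ := Measure.infinitePi_map_eval _ x
    conv_rhs => rw [← h2]
    rw [map_measureReal_apply (by fun_prop) (measurableSet_lt (by fun_prop) (by fun_prop))]
    rfl
  rw [h1]
  exact tail b hb

/-- the transfer -/
theorem transfer (b R p : ℝ) (hb : 0 ≤ b) (hR : 1 ≤ R) (G' : Set (Zd d → ℝ))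
    (hG' : MeasurableSet G')
    (hP : 1 - p ≤ (Measure.infinitePi fun _ : Zd d => nu b).real G') :
    ∃ G : Set (Zd d → ℝ), MeasurableSet G ∧
      1 - (p + (3 * R) ^ d * (2 * Real.exp (-(b ^ 2 / 2)))) ≤ (Pg d).real G ∧
      ∀ ξ ∈ G, (fun x => cl b (ξ x)) ∈ G' ∧ ∀ x : Zd d, ‖x‖ ≤ R → |ξ x| ≤ b := by
  have hTm : Measurable (fun (ξ : Zd d → ℝ) x => cl b (ξ x)) :=
    measurable_pi_iff.2 fun x => (cl_meas b).comp (measurable_pi_apply x)
  have hlaw : (Pg d).map (fun ξ x => cl b (ξ x)) = Measure.infinitePi fun _ : Zd d => nu b :=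
    Measure.infinitePi_map_pi (μ := fun _ : Zd d => γ)
      (f := fun _ (s : ℝ) => cl b s) (fun _ => cl_meas b)
  obtain ⟨G1, hG1⟩ : ∃ G1 : Set (Zd d → ℝ), G1 = (fun (ξ : Zd d → ℝ) x => cl b (ξ x)) ⁻¹' G' :=
    ⟨_, rfl⟩
  have hG1m : MeasurableSet G1 := by rw [hG1]; exact hTm hG'
  have hP1 : (Pg d).real G1ᶜ ≤ p := by
    have h1 : (Pg d).real G1 = (Measure.infinitePi fun _ : Zd d => nu b).real G' := by
      rw [hG1, ← hlaw, map_measureReal_apply hTm hG']
    have h2 := probReal_add_probReal_compl (μ := Pg d) hG1m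
    linarith
  obtain ⟨B, hB⟩ : ∃ B : Finset (Zd d), B = LO.bx (0 : Zd d) ⌊R⌋₊ := ⟨_, rfl⟩
  obtain ⟨G2, hG2⟩ : ∃ G2 : Set (Zd d → ℝ), G2 = ⋂ x ∈ B, {ξ | |ξ x| ≤ b} := ⟨_, rfl⟩
  have hG2m : MeasurableSet G2 := by
    rw [hG2]
    exact Finset.measurableSet_biInter _ fun a _ =>
      measurableSet_le (by fun_prop) (by fun_prop)
  have hP2 : (Pg d).real G2ᶜ ≤ (3 * R) ^ d * (2 * Real.exp (-(b ^ 2 / 2))) := by
    have e1 : G2ᶜ = ⋃ x ∈ B, {ξ : Zd d → ℝ | b < |ξ x|} := by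
      rw [hG2]
      simp only [Set.compl_iInter]
      congr 1
      funext x
      congr 1
      funext _
      ext ξ
      simp
    rw [e1]
    refine (measureReal_biUnion_finset_le _ _).trans
      ((Finset.sum_le_sum fun a _ => site_tail b hb a).trans ?_)
    rw [Finset.sum_const, nsmul_eq_mul, hB, LO.Em.card_bx]
    apply mul_le_mul_of_nonneg_right _ (by positivity)
    push_cast
    apply pow_le_pow_left₀ (by positivity)
    have := Nat.floor_le (show 0 ≤ R by linarith)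
    linarith
  refine ⟨G1 ∩ G2, hG1m.inter hG2m, ?_, ?_⟩
  · have h1 := probReal_add_probReal_compl (μ := Pg d) (hG1m.inter hG2m)
    have h2 : (Pg d).real (G1 ∩ G2)ᶜ ≤ p + (3 * R) ^ d * (2 * Real.exp (-(b ^ 2 / 2))) := by
      rw [Set.compl_inter]
      exact (measureReal_union_le _ _).trans (add_le_add hP1 hP2)
    linarith
  · intro ξ hξ
    refine ⟨?_, fun x hx => ?_⟩
    · have := hξ.1
      rw [hG1] at this
      exact this
    · have h1 := hξ.2
      rw [hG2, hB] at h1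
      exact Set.mem_iInter₂.1 h1 x (Pool.Agent.W788.Gen3.norm_zd x R hx)

end Pool.Agent.Y661.BG
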