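import Pool.Agent.Y661.BG.Eng
import Pool.Agent.Y661.BG.Cut
import Pool.Agent.Y661.BG.Law
import Pool.Agent.W788.BK.Flat1

/-! Gaussian disorder beyond the kinetic scale. -/

set_option autoImplicit false
set_option linter.unusedSectionVars false

open scoped BigOperators
open MeasureTheory ProbabilityTheory

namespace Pool.Agent.Y661.BG

open Pool.Agent.W788.BK
open Pool.Agent.W788.LD.Main Pool.Agent.W788.LD.Spec
open Pool.Agent.H4R2.LO (Zd)

variable {d : ℕ}

/-- the Gaussian engine -/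
theorem engineN (hTH : S_THIRD) (hFL : S_FLUCT) (hIN : S_INV) (hMB : S_MB) (hCO : S_CONC)
    (hSU : S_SUP) (hSI : S_SITE) (hQB : S_QB) (hLO : S_LOW) (hAD : S_ADM)
    (d : ℕ) (hd : 3 ≤ d) : ∃ y0 : ℝ, ∀ y : ℝ, y0 ≤ y →
    ∃ G : Set (Zd d → ℝ), MeasurableSet G ∧
      1 - 2 * Real.exp (-Real.exp (y / 100)) ≤ (Pg d).real G ∧
      ∀ ξ ∈ G, SM1 d (Real.exp (-1 * y)) (Real.exp (Real.exp (y / 100)))
        (Real.exp (-(17 / 8) * y)) (2 * (192 * (C1 * (17 / 8 * y)))) ξ := by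
  obtain ⟨C, hC⟩ : ∃ C : ℝ, C = 2 * (d + 3) := ⟨_, rfl⟩
  have hd0 : (0 : ℝ) ≤ d := Nat.cast_nonneg d
  have hC0 : 0 < C := by rw [hC]; linarith
  have hC1 := C1_ge
  obtain ⟨y1, h1⟩ := engineG hTH hFL hIN hMB hCO hSU hSI hQB hLO hAD d hd C hC0
  obtain ⟨y2, hy2⟩ := Filter.eventually_atTop.1 ((Num.ev1 (4 * (d + 1)) 1 1 one_pos).and
    ((Num.ev1 5 (1 / 100) 1 (by norm_num)).and (Filter.eventually_ge_atTop (1 : ℝ))))
  refine ⟨max y1 y2, fun y hy => ?_⟩
  obtain ⟨n1, n2, hy1⟩ := hy2 y ((le_max_right _ _).trans hy)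
  simp only [pow_one] at n1 n2
  obtain ⟨Y, hY⟩ : ∃ Y, Y = Real.exp (y / 100) := ⟨_, rfl⟩
  have hY' : Y = Real.exp (1 / 100 * y) := by rw [hY]; congr 1; ring
  obtain ⟨b, hb⟩ : ∃ b, b = C * Real.exp (1 / 200 * y) := ⟨_, rfl⟩
  have hb0 : 0 < b := by rw [hb]; positivity
  obtain ⟨G', hG', hP', hS⟩ := h1 y ((le_max_left _ _).trans hy) (nu b) (nu_prob b)
    (by rw [← hb]; exact nu_bd b hb0.le) (nu_mean b hb0.le) (nu_dom b hb0.le)
  rw [← hY] at hP' hS ⊢
  have hY1 : 1 ≤ Y := by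
    rw [hY]
    exact Real.one_le_exp (by linarith)
  have hρ1 : 1 ≤ Real.exp Y := Real.one_le_exp (by linarith)
  obtain ⟨G, hG, hP, hGG⟩ := transfer (d := d) b (2 * Real.exp Y) (Real.exp (-Y)) hb0.le
    (by linarith) G' hG' hP'
  refine ⟨G, hG, ?_, fun ξ hξ => ?_⟩
  · have hb2 : b ^ 2 / 2 = 2 * (d + 3) ^ 2 * Y := by
      rw [hb, hC, hY', mul_pow, Num.ex_pow]
      have : ((2 : ℕ) : ℝ) * (1 / 200) * y = 1 / 100 * y := by push_cast; ring
      rw [this]
      ring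
    have h6 : (3 * (2 * Real.exp Y)) ^ d ≤ Real.exp (2 * d + d * Y) := by
      have e1 : (3 * (2 * Real.exp Y)) ≤ Real.exp (2 + Y) := by
        have e2 : (6 : ℝ) ≤ Real.exp 2 := by
          have h7 := Real.exp_one_gt_d9
          have : Real.exp 2 = Real.exp 1 * Real.exp 1 := by
            rw [← Real.exp_add]
            norm_num
          rw [this]
          nlinarith
        rw [Real.exp_add]
        have := Real.exp_pos Y
        nlinarith
      calc (3 * (2 * Real.exp Y)) ^ d ≤ Real.exp (2 + Y) ^ d := by gcongr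
        _ = _ := by
          rw [← Real.exp_nat_mul]
          congr 1
          ring
    have h2e : (2 : ℝ) ≤ Real.exp 1 := by
      have := Real.exp_one_gt_d9
      linarith
    have h8 : (3 * (2 * Real.exp Y)) ^ d * (2 * Real.exp (-(b ^ 2 / 2))) ≤ Real.exp (-Y) := by
      rw [hb2]
      calc (3 * (2 * Real.exp Y)) ^ d * (2 * Real.exp (-(2 * (d + 3) ^ 2 * Y))) ≤
          Real.exp (2 * d + d * Y) * (Real.exp 1 * Real.exp (-(2 * (d + 3) ^ 2 * Y))) := by
            gcongr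
        _ = Real.exp (2 * d + d * Y + (1 + -(2 * (d + 3) ^ 2 * Y))) := by
            rw [← Real.exp_add, ← Real.exp_add]
        _ ≤ Real.exp (-Y) := by
            apply Real.exp_le_exp.2
            have e3 : 0 ≤ (d : ℝ) * Y := by positivity
            have e4 : (d : ℝ) ≤ d * Y := le_mul_of_one_le_right hd0 hY1
            have e5 : 0 ≤ (d : ℝ) ^ 2 * Y := by positivity
            nlinarith
    linarith
  · obtain ⟨g1, g2⟩ := hGG ξ hξ
    have hS1 := hS _ g1
    have hexp6 : 4 * (2 * d / Real.exp Y) ^ 2 ≤ 5 * Real.exp (-(17 / 8) * y) ^ 2 := by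
      have hd1 : 4 * (d + 1) * y ≤ Real.exp (1 * y) := n1
      have e1 : 5 * y ≤ Y := by rw [hY']; exact n2
      have e2 : Real.exp (5 * y) ≤ Real.exp Y := Real.exp_le_exp.2 e1
      have e3 : 4 * (d : ℝ) ≤ Real.exp (1 * y) := by nlinarith
      have e4 : 2 * d / Real.exp Y ≤ 1 / 2 * Real.exp (-4 * y) := by
        rw [div_le_iff₀ (Real.exp_pos _)]
        calc 2 * (d : ℝ) ≤ 1 / 2 * Real.exp (1 * y) := by linarith
          _ = 1 / 2 * (Real.exp (-4 * y) * Real.exp (5 * y)) := by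
              rw [Num.ex_mul]
              norm_num
          _ ≤ 1 / 2 * (Real.exp (-4 * y) * Real.exp Y) := by gcongr
          _ = _ := by ring
      calc 4 * (2 * d / Real.exp Y) ^ 2 ≤ 4 * (1 / 2 * Real.exp (-4 * y)) ^ 2 := by gcongr
        _ = Real.exp (-4 * y) ^ 2 := by ring
        _ ≤ Real.exp (-(17 / 8) * y) ^ 2 := by
            gcongr
            linarith
        _ ≤ _ := by
            have : 0 ≤ Real.exp (-(17 / 8) * y) ^ 2 := by positivity
            linarith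
    refine SM1_cut _ _ _ _ (Real.exp Y) (Real.exp_pos _) le_rfl (Real.exp_pos _) (by positivity)
      hexp6 ξ _ (fun x hx => ?_) hS1
    exact (cl_eq b _ (g2 x hx.le)).symm

/-- **the Gaussian model beyond the kinetic scale** -/
theorem finG (hTH : S_THIRD) (hFL : S_FLUCT) (hIN : S_INV) (hMB : S_MB) (hCO : S_CONC)
    (hSU : S_SUP) (hSI : S_SITE) (hQB : S_QB) (hLO : S_LOW) (hAD : S_ADM)
    (d : ℕ) (hd : 3 ≤ d) :
    ∃ s0 K : ℝ, 0 < s0 ∧ 0 < K ∧ ∀ σ : ℝ, 0 < σ → σ ≤ s0 →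
      ∃ G : Set (Zd d → ℝ), MeasurableSet G ∧
        1 - 2 * Real.exp (-σ ^ (-(1 / 100) : ℝ)) ≤ (Pg d).real G ∧
        ∀ ξ ∈ G,
        (∀ (f : Zd d → ℂ) (B : Finset (Zd d)),
          (∀ a ∈ B, ‖a‖ ≤ Real.exp (σ ^ (-(1 / 100) : ℝ))) → (∀ a, a ∉ B → f a = 0) →
          ∀ m : Measure ℝ, IsFiniteMeasure m →
          (∀ z : ℂ, z.im ≠ 0 → ∃ u : Zd d → ℂ, (Summable fun x => ‖u x‖ ^ 2) ∧
            (∀ x, S u x + ((σ * ξ x : ℝ) : ℂ) * u x - z * u x = f x) ∧
            ∫ t : ℝ, ((t : ℂ) - z)⁻¹ ∂m = ∑' x, (starRingEnd ℂ) (f x) * u x) →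
          ∀ E s : ℝ, σ ^ (17 / 8 : ℝ) ≤ s → m.real (Set.Icc (E - s) (E + s)) ≤
            K * Real.log (1 / σ) * s * (∑ a ∈ B, ‖f a‖) ^ 2) ∧
        (∀ (E : ℝ) (u : Zd d → ℂ), (Summable fun x => ‖u x‖ ^ 2) →
          (∀ x, S u x + ((σ * ξ x : ℝ) : ℂ) * u x = (E : ℂ) * u x) →
          ∀ a : Zd d, ‖a‖ ≤ Real.exp (σ ^ (-(1 / 100) : ℝ)) →
          ‖u a‖ ^ 2 ≤ K * Real.log (1 / σ) * σ ^ (17 / 8 : ℝ) * ∑' x, ‖u x‖ ^ 2) := by
  obtain ⟨y0, h0⟩ := engineN hTH hFL hIN hMB hCO hSU hSI hQB hLO hAD d hd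
  obtain ⟨y1, hy1⟩ : ∃ y1, y1 = max y0 1 := ⟨_, rfl⟩
  have hC1 := C1_ge
  refine ⟨Real.exp (-y1), 20 * (2 * (192 * (C1 * (17 / 8)))), Real.exp_pos _, by positivity, ?_⟩
  intro σ hσ hσ0
  obtain ⟨y, hy⟩ : ∃ y, y = Real.log (1 / σ) := ⟨_, rfl⟩
  have hlogσ : Real.log σ = -y := by
    rw [hy, one_div, Real.log_inv, neg_neg]
  have hyy1 : y1 ≤ y := by
    have h1 := Real.log_le_log hσ hσ0
    rw [Real.log_exp, hlogσ] at h1
    linarith
  have hyy0 : y0 ≤ y := le_trans (by rw [hy1]; exact le_max_left _ _) hyy1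
  have hyone : 1 ≤ y := le_trans (by rw [hy1]; exact le_max_right _ _) hyy1
  have e1 : σ ^ (-(1 / 100) : ℝ) = Real.exp (y / 100) := by
    rw [Real.rpow_def_of_pos hσ, hlogσ]
    congr 1
    ring
  have e2 : σ ^ (17 / 8 : ℝ) = Real.exp (-(17 / 8) * y) := by
    rw [Real.rpow_def_of_pos hσ, hlogσ]
    congr 1
    ring
  have e3 : Real.exp (-1 * y) = σ := by
    rw [neg_one_mul, ← hlogσ, Real.exp_log hσ]
  rw [e1, e2, ← hy]
  obtain ⟨G, hG, hP, hb⟩ := h0 y hyy0
  rw [e3] at hb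
  refine ⟨G, hG, hP, fun ξ hξ => ?_⟩
  have ht1 : Real.exp (-(17 / 8) * y) ≤ 1 / 2 := by
    have h1 : Real.exp (-(17 / 8) * y) ≤ Real.exp (-1) := by
      apply Real.exp_le_exp.2
      linarith
    have h2 : Real.exp (-1) ≤ 1 / 2 := by
      rw [Real.exp_neg, one_div]
      apply inv_anti₀ (by norm_num)
      have := Real.exp_one_gt_d9
      linarith
    linarith
  obtain ⟨f1, f2⟩ := flat1 σ _ (Real.exp (-(17 / 8) * y)) _ (Real.exp_pos _) ht1
    (by positivity) ξ (hb ξ hξ) (fun x => -(σ * ξ x)) 0 (fun x => by ring)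
  constructor
  · intro f B hB hfB m hm hres E s hs
    obtain ⟨m', hm'⟩ : ∃ m' : Measure ℝ, m' = m.map fun t : ℝ => -t := ⟨_, rfl⟩
    have hmf : IsFiniteMeasure m' := by
      rw [hm']
      infer_instance
    have h3 := f1 f B hB hfB m' hmf (fun z hz => ?_) (-E) s hs
    · have h4 : m'.real (Set.Icc (-E - s) (-E + s)) = m.real (Set.Icc (E - s) (E + s)) := by
        rw [hm', map_measureReal_apply measurable_neg measurableSet_Icc]
        congr 1
        ext t
        simp only [Set.mem_preimage, Set.mem_Icc]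
        constructor <;> rintro ⟨h5, h6⟩ <;> constructor <;> linarith
      rw [h4] at h3
      refine h3.trans (le_of_eq ?_)
      ring
    · obtain ⟨u, hu, heq, hint⟩ := hres (-z) (by simpa using hz)
      refine ⟨fun x => -u x, by simpa only [norm_neg] using hu, fun x => ?_, ?_⟩
      · have h5 := heq x
        have h6 : S (fun x => -u x) x = -S u x := by
          unfold S
          rw [← Finset.sum_neg_distrib]
          exact Finset.sum_congr rfl fun i _ => by ring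
        rw [h6]
        push_cast at h5 ⊢
        linear_combination h5
      · rw [hm', integral_map (by fun_prop) (by
          apply Measurable.aestronglyMeasurable
          fun_prop)]
        have h7 : ∀ t : ℝ, (((-t : ℝ) : ℂ) - z)⁻¹ = -(((t : ℂ) - -z)⁻¹) := by
          intro t
          rw [← inv_neg]
          congr 1
          push_cast
          ring
        simp only [h7, integral_neg, hint, mul_neg, tsum_neg]
  · intro E u hu heq a ha
    refine (f2 (-E) u hu (fun x => ?_) a ha).trans ?_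
    · have h5 := heq x
      push_cast at h5 ⊢
      linear_combination -h5
    · have h3 : 0 ≤ ∑' x, ‖u x‖ ^ 2 := tsum_nonneg fun x => by positivity
      apply mul_le_mul_of_nonneg_right _ h3
      have h4 : 0 ≤ C1 * y * Real.exp (-(17 / 8) * y) := by positivity
      linarith

end Pool.Agent.Y661.BG
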